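import Pool.Agent.H46.VIO.Stmts
import Pool.Agent.H21.EHB.Dir

/-!
# VIO, module DIR: simultaneous approximation

From the Dirichlet theorem of `H21/EHB/Dir.lean` with `D = ⌈1 / ε⌉`, `Q = D ^ k`.
-/

set_option autoImplicit false

namespace Pool.VIO

open Finset Pool.Agent.H98.ABCR Pool.SHA Pool.ABY

theorem dir_thm : S_DIR := by
  intro k ε hε hε2
  set D : ℕ := ⌈1 / ε⌉₊ with hD
  have hDl : 1 / ε ≤ D := Nat.le_ceil _
  have hD0 : (0 : ℝ) < D := lt_of_lt_of_le (by positivity) hDl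
  have hD1 : 1 ≤ D := by
    have : 0 < D := by exact_mod_cast hD0
    omega
  refine ⟨D ^ k, Nat.one_le_pow _ _ hD1, ?_⟩
  intro S ρ hS hρ
  obtain ⟨q, hq1, hq2, n, hn⟩ := Pool.Agent.H21.EHB.dirichlet S ρ D hD1
  refine ⟨q, hq1, hq2.trans (Nat.pow_le_pow_right hD1 hS), ?_⟩
  intro p hp
  have h1 : |(q : ℝ) * ρ p - n p| ≤ ε := by
    refine (hn p hp).trans ?_
    rw [div_le_iff₀ hD0]
    rw [div_le_iff₀ hε] at hDl
    linarith
  have h2 : 0 ≤ n p := by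
    have h3 := (abs_le.1 h1).2
    have h4 : 0 ≤ (q : ℝ) * ρ p := mul_nonneg (Nat.cast_nonneg _) (hρ p hp)
    have h5 : (-1 : ℝ) < n p := by linarith
    have h6 : (-1 : ℤ) < n p := by exact_mod_cast h5
    omega
  refine ⟨(n p).toNat, ?_⟩
  have h7 : (((n p).toNat : ℕ) : ℝ) = (n p : ℝ) := by
    have h8 : (((n p).toNat : ℕ) : ℤ) = n p := Int.toNat_of_nonneg h2
    exact_mod_cast h8
  rw [h7]
  exact h1

end Pool.VIO
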